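import Mathlib

set_option autoImplicit false

namespace Pool.Agent.H.MP_e16cda_ag

open Filter Topology

abbrev Z (g : ℕ) : Type := Fin g → ℤ

variable {g : ℕ}

noncomputable def mon (l : List (Fin g)) (n : Z g) : ℂ := (l.map fun i => (n i : ℂ)).prod

noncomputable def nm (n : Z g) : ℝ := ∑ i, |(n i : ℝ)|

def Good (p : Z g → ℂ) : Prop := ∀ R : ℝ, Summable fun n => ‖p n‖ * Real.exp (R * nm n)

noncomputable def M (l : List (Fin g)) (p : Z g → ℂ) : ℂ := ∑' n, p n * mon l n

lemma mon_cons (i : Fin g) (l : List (Fin g)) (n : Z g) : mon (i :: l) n = n i * mon l n := by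
  simp [mon]

lemma mon_nil (n : Z g) : mon [] n = 1 := by simp [mon]

lemma norm_mon (l : List (Fin g)) (n : Z g) : ‖mon l n‖ ≤ Real.exp (l.length * nm n) := by
  induction l with
  | nil => simp [mon]
  | cons i l ih =>
    rw [mon_cons, norm_mul, List.length_cons, Nat.cast_succ, add_mul, one_mul, Real.exp_add,
      mul_comm]
    refine mul_le_mul ih ?_ (norm_nonneg _) (Real.exp_pos _).le
    have h1 : |(n i : ℝ)| ≤ nm n :=
      Finset.single_le_sum (f := fun i => |(n i : ℝ)|) (fun _ _ => abs_nonneg _) (Finset.mem_univ i)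
    have := Real.add_one_le_exp (nm n)
    rw [Complex.norm_intCast]
    linarith

lemma Good.sm {p : Z g → ℂ} (hp : Good p) (l : List (Fin g)) :
    Summable fun n => ‖p n * mon l n‖ :=
  (hp l.length).of_nonneg_of_le (fun _ => norm_nonneg _) fun n => by
    rw [norm_mul]
    exact mul_le_mul_of_nonneg_left (norm_mon l n) (norm_nonneg _)

lemma hb {X ι : Type*} {T : Set (X → ℂ)} (hT : T.Finite) (f : ι → X → ℂ) (deg : ι → ℕ)
    (hf : ∀ i, f i ∈ Algebra.adjoin ℂ T) :
    ∃ d, ∀ x, (∀ i, deg i ≤ d → f i x = 0) → ∀ i, f i x = 0 := by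
  have : IsNoetherianRing (Algebra.adjoin ℂ T) :=
    isNoetherianRing_of_fg (Subalgebra.fg_def.2 ⟨T, hT, rfl⟩)
  let I : ℕ →o Ideal (Algebra.adjoin ℂ T) :=
    ⟨fun d => Ideal.span {a | ∃ i, deg i ≤ d ∧ a = ⟨f i, hf i⟩}, fun d d' h =>
      Ideal.span_mono fun a ⟨i, hi, ha⟩ => ⟨i, hi.trans h, ha⟩⟩
  obtain ⟨d, hd⟩ := monotone_stabilizes_iff_noetherian.2 this I
  refine ⟨d, fun x hx i => ?_⟩
  let ev : Algebra.adjoin ℂ T →+* ℂ := (Pi.evalRingHom (fun _ => ℂ) x).comp
    (Algebra.adjoin ℂ T).val.toRingHom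
  have h1 : I d ≤ RingHom.ker ev := Ideal.span_le.2 (by
    rintro _ ⟨j, hj, rfl⟩
    exact hx j hj)
  have h2 : (⟨f i, hf i⟩ : Algebra.adjoin ℂ T) ∈ I (max d (deg i)) :=
    Ideal.subset_span ⟨i, le_max_right _ _, rfl⟩
  rw [← hd _ (le_max_left _ _)] at h2
  exact h1 h2

noncomputable def m2 (a b : List (Fin g)) (z : Z g × Z g) : ℂ := mon a z.1 * mon b z.2

def V (g D : ℕ) : Submodule ℂ (Z g × Z g → ℂ) :=
  Submodule.span ℂ {H | ∃ a b : List (Fin g), a.length < D ∧ b.length < D ∧ H = m2 a b}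

def W (g D : ℕ) : Submodule ℂ (Z g × Z g → ℂ) :=
  Submodule.span ℂ {H | ∃ a b : List (Fin g), a.length + b.length = D ∧ 0 < a.length ∧
    0 < b.length ∧ H = m2 a b}

lemma W_le {D E : ℕ} (h : D ≤ E) : W g D ≤ V g E :=
  Submodule.span_mono fun _ ⟨a, b, h1, h2, h3, h4⟩ => ⟨a, b, by omega, by omega, h4⟩

lemma W_mul {D : ℕ} {H : Z g × Z g → ℂ} (hH : H ∈ W g D) (i : Fin g) :
    m2 [i] [] * H ∈ W g (D + 1) ∧ m2 [] [i] * H ∈ W g (D + 1) := by
  induction hH using Submodule.span_induction with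
  | mem H h =>
    obtain ⟨a, b, h1, h2, h3, rfl⟩ := h
    constructor
    · refine Submodule.subset_span ⟨i :: a, b, by simp; omega, by simp, h3, funext fun z => ?_⟩
      simp [m2, mon_cons, mon_nil, mul_assoc]
    · refine Submodule.subset_span ⟨a, i :: b, by simp; omega, h2, by simp, funext fun z => ?_⟩
      simp [m2, mon_cons, mon_nil, mul_left_comm]
  | zero => simp
  | add x y _ _ hx hy => rw [mul_add, mul_add]; exact ⟨add_mem hx.1 hy.1, add_mem hx.2 hy.2⟩
  | smul a x _ hx =>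
    rw [mul_smul_comm, mul_smul_comm]
    exact ⟨Submodule.smul_mem _ _ hx.1, Submodule.smul_mem _ _ hx.2⟩

noncomputable def pr (L : List (Fin g × ℂ)) (z : Z g × Z g) : ℂ :=
  (L.map fun q => (z.1 q.1 : ℂ) + q.2 * z.2 q.1).prod

lemma pr_W (L : List (Fin g × ℂ)) (hL : L ≠ []) :
    pr L - m2 (L.map Prod.fst) [] - (L.map Prod.snd).prod • m2 [] (L.map Prod.fst) ∈
      W g L.length := by
  induction L with
  | nil => exact absurd rfl hL
  | cons q L ih =>
    by_cases h : L = []
    · subst h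
      have : pr [q] - m2 ([q].map Prod.fst) [] -
          ([q].map Prod.snd).prod • m2 [] ([q].map Prod.fst) = 0 := by
        funext z
        simp [pr, m2, mon]
      rw [this]
      exact zero_mem _
    · have h0 : 0 < L.length := List.length_pos_iff.2 h
      obtain ⟨h1, h2⟩ := W_mul (ih h) q.1
      have h3 : m2 [q.1] (L.map Prod.fst) ∈ W g (L.length + 1) :=
        Submodule.subset_span ⟨_, _, by simp [add_comm], by simp, by simpa using h0, rfl⟩
      have h4 : m2 (L.map Prod.fst) [q.1] ∈ W g (L.length + 1) :=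
        Submodule.subset_span ⟨_, _, by simp, by simpa using h0, by simp, rfl⟩
      have := add_mem (add_mem h1 (Submodule.smul_mem _ q.2 h2))
        (add_mem (Submodule.smul_mem _ (L.map Prod.snd).prod h3) (Submodule.smul_mem _ q.2 h4))
      refine Eq.mp (congrArg (· ∈ W g (L.length + 1)) (funext fun z => ?_)) this
      simp only [pr, m2, mon_cons, mon_nil, List.map_cons, List.prod_cons, Pi.add_apply,
        Pi.sub_apply, Pi.mul_apply, Pi.smul_apply, smul_eq_mul]
      ring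

lemma pr_V (L : List (Fin g × ℂ)) {D : ℕ} (hL : L.length < D) : pr L ∈ V g D := by
  by_cases h : L = []
  · subst h
    exact Submodule.subset_span ⟨[], [], hL, hL, funext fun z => by simp [pr, m2, mon]⟩
  · have h1 := W_le hL.le (pr_W L h)
    have h2 : m2 (L.map Prod.fst) [] ∈ V g D :=
      Submodule.subset_span ⟨_, _, by simpa using hL, by simp; omega, rfl⟩
    have h3 : m2 [] (L.map Prod.fst) ∈ V g D :=
      Submodule.subset_span ⟨_, _, by simp; omega, by simpa using hL, rfl⟩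
    have := add_mem (add_mem h1 (Submodule.smul_mem _ (L.map Prod.snd).prod h3)) h2
    simpa using this

noncomputable def Λ (p : Z g → ℂ) (H : Z g × Z g → ℂ) : ℂ := ∑' z, p z.1 * p z.2 * H z

lemma m2_eq (p : Z g → ℂ) (a b : List (Fin g)) : (fun z : Z g × Z g => p z.1 * p z.2 * m2 a b z) =
    fun z => (p z.1 * mon a z.1) * (p z.2 * mon b z.2) := funext fun z => by
  rw [m2]; ring

lemma Good.s2 {p : Z g → ℂ} (hp : Good p) {D : ℕ} {H : Z g × Z g → ℂ} (hH : H ∈ V g D) :
    Summable fun z : Z g × Z g => p z.1 * p z.2 * H z := by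
  induction hH using Submodule.span_induction with
  | mem H h =>
    obtain ⟨a, b, -, -, rfl⟩ := h
    rw [m2_eq]
    apply summable_mul_of_summable_norm (f := fun n => p n * mon a n)
      (g := fun n => p n * mon b n) (hp.sm a) (hp.sm b)
  | zero => exact summable_zero.congr fun z => (mul_zero _).symm
  | add x y _ _ hx hy => exact (hx.add hy).congr fun z => (mul_add _ _ _).symm
  | smul a x _ hx => exact (hx.mul_left a).congr fun z => mul_left_comm _ _ _

lemma Good.Λ_m2 {p : Z g → ℂ} (hp : Good p) (a b : List (Fin g)) :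
    Λ p (m2 a b) = M a p * M b p := by
  rw [Λ, m2_eq, M, M, tsum_mul_tsum_of_summable_norm (hp.sm a) (hp.sm b)]

lemma Good.Λ_add {p : Z g → ℂ} (hp : Good p) {D : ℕ} {H H' : Z g × Z g → ℂ} (hH : H ∈ V g D)
    (hH' : H' ∈ V g D) : Λ p (H + H') = Λ p H + Λ p H' := by
  rw [Λ, Λ, Λ, ← (hp.s2 hH).tsum_add (hp.s2 hH')]
  simp [mul_add]

lemma Λ_smul (p : Z g → ℂ) (c : ℂ) (H : Z g × Z g → ℂ) : Λ p (c • H) = c * Λ p H := by
  rw [Λ, Λ, ← tsum_mul_left]
  simp [mul_left_comm]

lemma Λ_mem {X : Type*} {p : X → Z g → ℂ} (hp : ∀ x, Good (p x)) (A : Subalgebra ℂ (X → ℂ))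
    {D : ℕ} (hA : ∀ l : List (Fin g), l.length < D → (fun x => M l (p x)) ∈ A)
    {H : Z g × Z g → ℂ} (hH : H ∈ V g D) : (fun x => Λ (p x) H) ∈ A := by
  induction hH using Submodule.span_induction with
  | mem H h =>
    obtain ⟨a, b, ha, hb, rfl⟩ := h
    simp only [(hp _).Λ_m2]
    exact mul_mem (hA a ha) (hA b hb)
  | zero =>
    simp only [Λ, Pi.zero_apply, mul_zero, tsum_zero]
    exact zero_mem A
  | add x y h1 h2 hx hy =>
    simp only [(hp _).Λ_add h1 h2]
    exact add_mem hx hy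
  | smul a x _ hx =>
    simp only [Λ_smul]
    exact A.smul_mem hx a

noncomputable def pm (γ β : List (Fin g)) : List (Fin g × ℂ) :=
  γ.map (fun i => (i, -1)) ++ β.map fun i => (i, 1)

lemma pr_pm (γ β : List (Fin g)) (z : Z g × Z g) :
    pr (pm γ β) z = mon β (z.1 + z.2) * mon γ (z.1 - z.2) := by
  simp [pr, pm, mon, Function.comp_def, mul_comm, sub_eq_add_neg]

def sg (σ : Fin g → Fin 2) : Z g := fun i => (σ i : ℕ)

noncomputable def eqv (g : ℕ) : (Fin g → Fin 2) × (Z g × Z g) ≃ Z g × Z g :=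
  Equiv.ofBijective (fun y => (y.2.1 + y.2.2 + sg y.1, y.2.1 - y.2.2)) (by
    constructor
    · rintro ⟨σ, s, r⟩ ⟨σ', s', r'⟩ h
      simp only [Prod.mk.injEq, funext_iff, Pi.add_apply, Pi.sub_apply, sg, Fin.ext_iff] at h ⊢
      refine ⟨fun i => ?_, fun i => ?_, fun i => ?_⟩ <;>
      · have := h.1 i; have := h.2 i; have := (σ i).2; have := (σ' i).2
        omega
    · rintro ⟨n, n'⟩
      refine ⟨(fun i => ⟨((n i + n' i) % 2).toNat, by omega⟩, fun i => (n i + n' i) / 2,
        fun i => (n i - n' i) / 2), ?_⟩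
      simp only [Prod.mk.injEq, funext_iff, Pi.add_apply, Pi.sub_apply, sg]
      constructor <;> intro i <;> omega)

noncomputable def vv (b : Z g → ℂ) (γ : List (Fin g)) (σ : Fin g → Fin 2) : ℂ :=
  ∑' r, b (r + r + sg σ) * mon γ (r + r + sg σ)

lemma Good.fac {p a b : Z g → ℂ} (hp : Good p) (h : ∀ n n', p n * p n' = a (n + n') * b (n - n'))
    (γ β : List (Fin g)) : Λ p (pr (pm γ β)) = ∑ σ, vv a β σ * vv b γ σ := by
  have hs := (eqv g).summable_iff.2 (hp.s2 (pr_V (pm γ β) (Nat.lt_succ_self _)))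
  have e : ∀ y : (Fin g → Fin 2) × (Z g × Z g),
      p (eqv g y).1 * p (eqv g y).2 * pr (pm γ β) (eqv g y) =
      (a (y.2.1 + y.2.1 + sg y.1) * mon β (y.2.1 + y.2.1 + sg y.1)) *
        (b (y.2.2 + y.2.2 + sg y.1) * mon γ (y.2.2 + y.2.2 + sg y.1)) := by
    intro y
    have e1 : (eqv g y).1 + (eqv g y).2 = y.2.1 + y.2.1 + sg y.1 := by
      simp only [eqv, Equiv.ofBijective_apply]; abel
    have e2 : (eqv g y).1 - (eqv g y).2 = y.2.2 + y.2.2 + sg y.1 := by
      simp only [eqv, Equiv.ofBijective_apply]; abel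
    rw [h, pr_pm, e1, e2]
    ring
  rw [Λ, ← (eqv g).tsum_eq]
  simp only [Function.comp_def, e] at hs ⊢
  rw [hs.tsum_prod, tsum_fintype]
  refine Finset.sum_congr rfl fun σ _ => ?_
  rw [(hs.prod_factor σ).tsum_prod]
  simp only [tsum_mul_left, tsum_mul_right, vv]

noncomputable def J (g K : ℕ) : Finset (List (Fin g)) := (List.finite_length_lt (Fin g) K).toFinset

lemma mem_J {K : ℕ} {l : List (Fin g)} : l ∈ J g K ↔ l.length < K := by simp [J]

lemma exK {S : Type} [Fintype S] (v : List (Fin g) → S → ℂ) :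
    ∃ K, Even K ∧ K ≤ 2 * Fintype.card S ∧ ∀ l : List (Fin g), ∃ c : List (Fin g) → ℂ,
      l.length = K → ∑ γ ∈ J g K, c γ • v γ = v l := by
  by_contra hc
  push Not at hc
  let E : ℕ → Submodule ℂ (S → ℂ) := fun k => Submodule.span ℂ (v '' (J g k))
  have h1 : ∀ j, j ≤ Fintype.card S + 1 → j ≤ Module.finrank ℂ (E (2 * j)) := by
    intro j
    induction j with
    | zero => simp
    | succ j ih =>
      intro hj
      obtain ⟨l, hl⟩ := hc (2 * j) (even_two_mul j) (by omega)
      have h2 : E (2 * j) < E (2 * (j + 1)) := by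
        refine lt_of_le_of_ne (Submodule.span_mono (Set.image_mono fun x hx =>
          mem_J.2 ((mem_J.1 hx).trans (by omega)))) fun h => ?_
        have h3 : v l ∈ E (2 * (j + 1)) :=
          Submodule.subset_span ⟨l, mem_J.2 (by have := (hl 0).1; omega), rfl⟩
        rw [← h] at h3
        obtain ⟨c, hc⟩ := (Submodule.mem_span_image_finset_iff_exists_fun' ℂ).1 h3
        exact (hl c).2 hc
      have := Submodule.finrank_lt_finrank_of_lt h2
      have := ih (by omega)
      omega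
  have h2 := h1 _ le_rfl
  have h3 := Submodule.finrank_le (E (2 * (Fintype.card S + 1)))
  rw [Module.finrank_fintype_fun_eq_card] at h3
  omega

end Pool.Agent.H.MP_e16cda_ag
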