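import Pool.Agent.H.MP_e16cda_ag.A

set_option autoImplicit false

namespace Pool.Agent.H.MP_e16cda_ag

open Filter Topology

variable {g : ℕ}

def Cl (p : Z g → ℂ) : Prop :=
  Good p ∧ M [] p = 1 ∧ ∃ a b : Z g → ℂ, ∀ n n', p n * p n' = a (n + n') * b (n - n')

noncomputable def ww (α β : List (Fin g)) : Z g × Z g → ℂ :=
  pr (pm α β) - m2 (α ++ β) [] - m2 [] (α ++ β)

lemma ww_mem {α β : List (Fin g)} (he : Even α.length) (h0 : α ++ β ≠ []) :
    ww α β ∈ V g (α ++ β).length := by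
  have h1 : (pm α β).map Prod.fst = α ++ β := by simp [pm, Function.comp_def]
  have h2 : ((pm α β).map Prod.snd).prod = 1 := by simp [pm, Function.comp_def, he.neg_one_pow]
  have h3 : pm α β ≠ [] := fun h => h0 (by rw [← h1, h]; rfl)
  have := pr_W _ h3
  rw [h1, h2, one_smul] at this
  exact W_le (by simp [pm]) this

lemma Cl.recur {p : Z g → ℂ} (hp : Cl p) : ∃ K, Even K ∧ K ≤ 2 * 2 ^ g ∧
    ∀ α : List (Fin g), ∃ c : List (Fin g) → ℂ, α.length = K → ∀ β, α ++ β ≠ [] →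
      M (α ++ β) p = (1 / 2) * (∑ γ ∈ J g K, c γ * Λ p (pr (pm γ β)) - Λ p (ww α β)) := by
  obtain ⟨hg, h1, a, b, hab⟩ := hp
  obtain ⟨K, hK, hK2, h⟩ := exK (vv b)
  refine ⟨K, hK, by simpa using hK2, fun α => ?_⟩
  obtain ⟨c, hc⟩ := h α
  refine ⟨c, fun hα β h0 => ?_⟩
  have e1 : ∑ γ ∈ J g K, c γ * Λ p (pr (pm γ β)) = Λ p (pr (pm α β)) := by
    simp only [hg.fac hab, ← hc hα, Finset.sum_apply, Pi.smul_apply, smul_eq_mul, Finset.mul_sum]
    rw [Finset.sum_comm]
    exact Finset.sum_congr rfl fun _ _ => Finset.sum_congr rfl fun _ _ => by ring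
  have h2 : ww α β ∈ V g ((α ++ β).length + 1) :=
    Submodule.span_mono (by rintro _ ⟨a, b, h1, h2, h3⟩; exact ⟨a, b, by omega, by omega, h3⟩)
      (ww_mem (hα ▸ hK) h0)
  have h3 : m2 (α ++ β) [] ∈ V g ((α ++ β).length + 1) :=
    Submodule.subset_span ⟨_, _, by simp, by simp, rfl⟩
  have h4 : m2 [] (α ++ β) ∈ V g ((α ++ β).length + 1) :=
    Submodule.subset_span ⟨_, _, by simp, by simp, rfl⟩
  have e2 : pr (pm α β) = ww α β + m2 [] (α ++ β) + m2 (α ++ β) [] := by simp [ww]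
  rw [e1, e2, hg.Λ_add (add_mem h2 h4) h3, hg.Λ_add h2 h4, hg.Λ_m2, hg.Λ_m2, h1]
  ring

lemma fg (g : ℕ) : ∃ T : Set ({p : Z g → ℂ // Cl p} → ℂ), T.Finite ∧
    ∀ l, (fun x => M l x.1) ∈ Algebra.adjoin ℂ T := by
  classical
  choose K hK hK2 c hc using fun x : {p : Z g → ℂ // Cl p} => x.2.recur
  let N := 2 * 2 ^ g + 1
  let T : Set ({p : Z g → ℂ // Cl p} → ℂ) :=
    ((fun k x => if K x = k then 1 else 0) '' (Finset.range N) ∪
      (fun l x => M l x.1) '' (J g N)) ∪
      (fun y : List (Fin g) × List (Fin g) => fun x => c x y.1 y.2) '' (J g N ×ˢ J g N)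
  refine ⟨T, (((Finset.finite_toSet _).image _).union ((Finset.finite_toSet _).image _)).union
    (((Finset.finite_toSet _).prod (Finset.finite_toSet _)).image _), fun l => ?_⟩
  induction h : l.length using Nat.strong_induction_on generalizing l with
  | _ D ih =>
    by_cases hD : D < N
    · exact Algebra.subset_adjoin (Or.inl (Or.inr ⟨l, mem_J.2 (h ▸ hD), rfl⟩))
    have hA : ∀ l : List (Fin g), l.length < D → (fun x : {p : Z g → ℂ // Cl p} => M l x.1) ∈
        Algebra.adjoin ℂ T := fun l hl => ih _ hl l rfl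
    have h0 : l ≠ [] := by
      rintro rfl
      simp only [List.length_nil] at h
      omega
    have e : (fun x : {p : Z g → ℂ // Cl p} => M l x.1) = ∑ k ∈ Finset.range N with Even k,
        (fun x => if K x = k then 1 else 0) * ((1 / 2 : ℂ) • (∑ γ ∈ J g k,
          (fun x => c x (l.take k) γ) * (fun x => Λ x.1 (pr (pm γ (l.drop k)))) -
          fun x => Λ x.1 (ww (l.take k) (l.drop k)))) := by
      funext x
      have := hK2 x
      have h1 := hc x (l.take (K x)) (by simp; omega) (l.drop (K x)) (by simpa using h0)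
      rw [List.take_append_drop] at h1
      simp only [Finset.sum_apply, Pi.mul_apply, Pi.smul_apply, Pi.sub_apply, ite_mul, one_mul,
        zero_mul, Finset.sum_ite_eq, smul_eq_mul]
      rw [if_pos (Finset.mem_filter.2 ⟨Finset.mem_range.2 (by omega), hK x⟩), h1]
    rw [e]
    refine sum_mem fun k hk => ?_
    obtain ⟨hk, hke⟩ := Finset.mem_filter.1 hk
    have hk' := Finset.mem_range.1 hk
    have hl : (l.take k).length = k := by simp; omega
    refine mul_mem (Algebra.subset_adjoin (Or.inl (Or.inl ⟨k, hk, rfl⟩)))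
      (Subalgebra.smul_mem _ (sub_mem (sum_mem fun γ hγ => mul_mem ?_ ?_) ?_) _)
    · exact Algebra.subset_adjoin (Or.inr ⟨(l.take k, γ), ⟨mem_J.2 (hl.trans_lt hk'),
        mem_J.2 ((mem_J.1 hγ).trans hk')⟩, rfl⟩)
    · refine Λ_mem (fun x => x.2.1) _ hA (pr_V _ ?_)
      have := mem_J.1 hγ
      simp [pm]
      omega
    · have := ww_mem (α := l.take k) (β := l.drop k) (hl.symm ▸ hke) (by simpa using h0)
      rw [List.take_append_drop, h] at this
      exact Λ_mem (fun x => x.2.1) _ hA this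

noncomputable def lg (m : ℕ) (y : ℤ) : ℂ := ∏ k ∈ Finset.range m, (1 - ((y : ℂ) / (k + 1)) ^ 2)

lemma lg_zero {m : ℕ} {y : ℤ} (h0 : y ≠ 0) (h : y.natAbs ≤ m) : lg m y = 0 := by
  refine Finset.prod_eq_zero (i := y.natAbs - 1) (Finset.mem_range.2 (by omega)) ?_
  have h1 : ((y.natAbs - 1 : ℕ) : ℂ) + 1 = (y.natAbs : ℕ) := by
    rw [← Nat.cast_succ]; congr 1; omega
  have h2 : ((y.natAbs : ℕ) : ℂ) ^ 2 = y ^ 2 := by
    rw [← Int.cast_natCast, ← Int.cast_pow, Int.natAbs_sq, Int.cast_pow]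
  have h3 : (y : ℂ) ^ 2 ≠ 0 := pow_ne_zero _ (Int.cast_ne_zero.2 h0)
  rw [h1, div_pow, h2, div_self h3, sub_self]

lemma norm_lg (m : ℕ) (y : ℤ) : ‖lg m y‖ ≤ Real.exp (2 * |(y : ℝ)|) := by
  by_cases h0 : y = 0
  · simp [lg, h0]
  by_cases h : y.natAbs ≤ m
  · rw [lg_zero h0 h, norm_zero]; positivity
  have h1 : ‖lg m y‖ ≤ ∏ k ∈ Finset.range m, (|(y : ℝ)| / (k + 1)) ^ 2 := by
    rw [lg, norm_prod]
    refine Finset.prod_le_prod (fun _ _ => norm_nonneg _) fun k hk => ?_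
    have hk := Finset.mem_range.1 hk
    have h2 : (k + 1 : ℝ) ≤ |(y : ℝ)| := by
      have : (k + 1 : ℤ) ≤ |y| := by rw [Int.abs_eq_natAbs]; omega
      exact_mod_cast this
    have h3 : 1 ≤ (|(y : ℝ)| / (k + 1)) ^ 2 := one_le_pow₀ ((one_le_div (by positivity)).2 h2)
    have e : (1 - ((y : ℂ) / (k + 1)) ^ 2) = ((1 - (|(y : ℝ)| / (k + 1)) ^ 2 : ℝ) : ℂ) := by
      rw [div_pow, div_pow, sq_abs]; push_cast; rfl
    rw [e, Complex.norm_real, Real.norm_eq_abs, abs_le]
    constructor <;> linarith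
  refine h1.trans ?_
  rw [Finset.prod_pow, Finset.prod_div_distrib, Finset.prod_const, Finset.card_range, two_mul,
    Real.exp_add, ← sq]
  have e : ∏ k ∈ Finset.range m, (k + 1 : ℝ) = m.factorial := by
    rw [← Finset.prod_range_add_one_eq_factorial]; push_cast; rfl
  rw [e]
  exact pow_le_pow_left₀ (by positivity) (Real.pow_div_factorial_le_exp _ (abs_nonneg _) m) 2

lemma kill {p q : Z g → ℂ} (hp : Good p) (hq : Good q) (h : ∀ l, M l p = M l q) {H : Z g → ℂ}
    (hH : H ∈ Algebra.adjoin ℂ (Set.range fun (i : Fin g) (n : Z g) => (n i : ℂ))) :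
    ∑' n, p n * H n = ∑' n, q n * H n := by
  have h1 : H ∈ Submodule.span ℂ (Set.range mon) := by
    rw [← Subalgebra.mem_toSubmodule, Algebra.adjoin_eq_span] at hH
    refine Submodule.span_mono (fun F hF => ?_) hH
    induction hF using Submonoid.closure_induction with
    | mem F h => obtain ⟨i, rfl⟩ := h; exact ⟨[i], funext fun n => by simp [mon]⟩
    | one => exact ⟨[], funext fun n => by simp [mon]⟩
    | mul x y _ _ hx hy =>
      obtain ⟨a, rfl⟩ := hx
      obtain ⟨b, rfl⟩ := hy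
      exact ⟨a ++ b, funext fun n => by simp [mon]⟩
  clear hH
  suffices (Summable fun n => p n * H n) ∧ (Summable fun n => q n * H n) ∧
    ∑' n, p n * H n = ∑' n, q n * H n from this.2.2
  induction h1 using Submodule.span_induction with
  | mem F hF => obtain ⟨l, rfl⟩ := hF; exact ⟨(hp.sm l).of_norm, (hq.sm l).of_norm, h l⟩
  | zero => simp only [Pi.zero_apply, mul_zero]; exact ⟨summable_zero, summable_zero, trivial⟩
  | add x y _ _ hx hy =>
    simp only [Pi.add_apply, mul_add]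
    refine ⟨hx.1.add hy.1, hx.2.1.add hy.2.1, ?_⟩
    rw [hx.1.tsum_add hy.1, hx.2.1.tsum_add hy.2.1, hx.2.2, hy.2.2]
  | smul a x _ hx =>
    simp only [Pi.smul_apply, smul_eq_mul, mul_left_comm _ a]
    refine ⟨hx.1.mul_left a, hx.2.1.mul_left a, ?_⟩
    rw [tsum_mul_left, tsum_mul_left, hx.2.2]

lemma Good.lim {p : Z g → ℂ} (hp : Good p) (n₀ : Z g) :
    Tendsto (fun m => ∑' n, p n * ∏ i, lg m (n i - n₀ i)) atTop (𝓝 (p n₀)) := by
  have h := tendsto_tsum_of_dominated_convergence (𝓕 := atTop)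
    (f := fun m n => p n * ∏ i, lg m (n i - n₀ i)) (g := fun n => if n = n₀ then p n₀ else 0)
    ((hp 2).mul_right (Real.exp (2 * nm n₀))) (fun n => ?_) (Eventually.of_forall fun m n => ?_)
  · rwa [tsum_ite_eq] at h
  · split_ifs with hn
    · simp [hn, lg]
    · obtain ⟨i, hi⟩ := Function.ne_iff.1 hn
      refine tendsto_const_nhds.congr' ?_
      filter_upwards [eventually_ge_atTop (n i - n₀ i).natAbs] with m hm
      rw [Finset.prod_eq_zero (Finset.mem_univ i) (lg_zero (sub_ne_zero.2 hi) hm), mul_zero]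
  · rw [norm_mul, mul_assoc, norm_prod]
    refine mul_le_mul_of_nonneg_left ((Finset.prod_le_prod (fun _ _ => norm_nonneg _)
      fun i _ => norm_lg m _).trans ?_) (norm_nonneg _)
    rw [← Real.exp_sum, ← Real.exp_add, ← mul_add, nm, nm, ← Finset.sum_add_distrib,
      ← Finset.mul_sum, Real.exp_le_exp]
    refine mul_le_mul_of_nonneg_left (Finset.sum_le_sum fun i _ => ?_) zero_le_two
    push_cast
    exact abs_sub _ _

lemma uniq {p q : Z g → ℂ} (hp : Good p) (hq : Good q) (h : ∀ l, M l p = M l q) : p = q := by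
  funext n₀
  refine tendsto_nhds_unique (hp.lim n₀) ((hq.lim n₀).congr fun m => (kill hp hq h ?_).symm)
  have e : (fun n : Z g => ∏ i, lg m (n i - n₀ i)) = ∏ i, ∏ k ∈ Finset.range m,
      (1 - (((k : ℂ) + 1)⁻¹ • ((fun n : Z g => (n i : ℂ)) - (n₀ i : ℂ) • 1)) ^ 2) := by
    funext n
    simp [lg, div_eq_inv_mul]
  rw [e]
  exact prod_mem fun i _ => prod_mem fun k _ => sub_mem (one_mem _) (pow_mem (Subalgebra.smul_mem _
    (sub_mem (Algebra.subset_adjoin (Set.mem_range_self i)) (Subalgebra.smul_mem _ (one_mem _) _)) _) _)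

theorem fin_det (g : ℕ) : ∃ d, ∀ p q : Z g → ℂ, Cl p → Cl q →
    (∀ l : List (Fin g), l.length ≤ d → M l p = M l q) → p = q := by
  obtain ⟨T, hT, h⟩ := fg g
  let X := {p : Z g → ℂ // Cl p}
  let F : (X → ℂ) →ₐ[ℂ] (X × X → ℂ) := AlgHom.pi fun y => Pi.evalAlgHom ℂ (fun _ => ℂ) y.1
  let G : (X → ℂ) →ₐ[ℂ] (X × X → ℂ) := AlgHom.pi fun y => Pi.evalAlgHom ℂ (fun _ => ℂ) y.2
  obtain ⟨d, hd⟩ := hb ((hT.image F).union (hT.image G))
    (fun l => F (fun x => M l x.1) - G fun x => M l x.1) List.length fun l => by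
      refine sub_mem (Algebra.adjoin_mono Set.subset_union_left ?_)
        (Algebra.adjoin_mono Set.subset_union_right ?_) <;>
      · rw [Algebra.adjoin_image]
        exact ⟨_, h l, rfl⟩
  exact ⟨d, fun p q hp hq hpq => uniq hp.1 hq.1 fun l => sub_eq_zero.1
    (hd (⟨p, hp⟩, ⟨q, hq⟩) (fun l hl => sub_eq_zero.2 (hpq l hl)) l)⟩

end Pool.Agent.H.MP_e16cda_ag
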